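import Pool.Agent.H859.NF.Down

/-!
# Every residue class, also with an odd modulus
-/

set_option autoImplicit false
set_option linter.all false

open Polynomial IsDedekindDomain NumberField
open scoped Classical

namespace Pool.Agent.H859.NF

open Pool.Agent.N352.PJ (pol)
open Pool.Agent.N783.PF (Cg sp rd Ht fF dsc Min)
open Pool.Agent.N874.TF (Tws Uni)
open Pool.Agent.N951.PF

/-- The residue classes in the theorem. -/
structure ClsA {F : Type} [Field F] [NumberField F] (g m : ℕ) (f₀ : (𝓞 F)[X]) : Prop where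
  pos : 0 < m
  mon : f₀.Monic
  deg : f₀.natDegree = 2 * g + 1
  tr : f₀.coeff (2 * g) = 0
  irr : ∀ v : HeightOneSpectrum (𝓞 F), (2 : 𝓞 F) ∈ v.asIdeal → (m : 𝓞 F) ∈ v.asIdeal →
    Irreducible (rd v.asIdeal f₀)
  disc : ∀ v : HeightOneSpectrum (𝓞 F), (m : 𝓞 F) ∈ v.asIdeal → dsc g f₀ ∉ v.asIdeal ^ 2

theorem exists_even {F : Type} [Field F] [NumberField F] {g m : ℕ} (hg : 1 ≤ g) {f₀ : (𝓞 F)[X]}
    (h : ClsA g m f₀) : ∃ (k : ℕ) (f₁ : (𝓞 F)[X]), Cls g k f₁ ∧ m ∣ k ∧ Cg (sp F m) f₁ f₀ := by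
  by_cases h2 : 2 ∣ m
  · refine ⟨m, f₀, ⟨h.pos, h2, h.mon, h.deg, h.tr, fun v hv => h.irr v hv ?_, h.disc⟩, dvd_rfl,
      fun j => by rw [sub_self]; exact Ideal.zero_mem _⟩
    exact mem_of_dvd h2 (by rw [Nat.cast_ofNat]; exact hv)
  obtain ⟨W, fg, hmon, hdeg, htr, hW0, htwo, hirr, hsep, -⟩ :=
    Pool.Agent.N300.TF.gfi Pool.Agent.N250.TF.irrk F g 0 hg
  have hcop : IsCoprime ((m : ℤ) ^ 2) 2 := by
    rw [IsCoprime.pow_left_iff two_pos]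
    have h3 : Nat.Coprime m 2 := by
      rw [Nat.coprime_comm]
      exact (Nat.Prime.coprime_iff_not_dvd Nat.prime_two).2 h2
    have := Nat.isCoprime_iff_coprime.2 h3
    exact_mod_cast this
  obtain ⟨a, b, hab⟩ := hcop
  have hab' : (a : 𝓞 F) * (m : 𝓞 F) ^ 2 + (b : 𝓞 F) * 2 = 1 := by
    have := congrArg (fun z : ℤ => (z : 𝓞 F)) hab
    push_cast at this
    exact this
  obtain ⟨A, hA⟩ : ∃ A : Fin (2 * g) → 𝓞 F, ∀ j, A j = f₀.coeff j +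
      (a : 𝓞 F) * (m : 𝓞 F) ^ 2 * (fg.coeff j - f₀.coeff j) := ⟨_, fun _ => rfl⟩
  have hcg1 : Cg (sp F (m ^ 2)) (pol A) f₀ := by
    apply cg_pol A h.mon h.deg h.tr
    intro j
    rw [Ideal.mem_span_singleton, hA]
    refine ⟨(a : 𝓞 F) * (fg.coeff j - f₀.coeff j), ?_⟩
    push_cast
    ring
  have hcg2 : Cg (sp F 2) (pol A) fg := by
    apply cg_pol A hmon hdeg htr
    intro j
    rw [Ideal.mem_span_singleton, hA]
    refine ⟨(b : 𝓞 F) * (f₀.coeff j - fg.coeff j), ?_⟩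
    push_cast
    linear_combination (fg.coeff j - f₀.coeff j) * hab'
  have hir2 : ∀ v : HeightOneSpectrum (𝓞 F), (2 : 𝓞 F) ∈ v.asIdeal →
      Irreducible (rd v.asIdeal (pol A)) := by
    intro v hv
    have hv' : ((2 : ℕ) : 𝓞 F) ∈ v.asIdeal := by rw [Nat.cast_ofNat]; exact hv
    rw [rd_of_cg (sp_le' hv') hcg2]
    exact hirr v (mem_of_dvd htwo hv')
  refine ⟨2 * m, pol A, ⟨Nat.mul_pos two_pos h.pos, Nat.dvd_mul_right _ _, pol_monic A,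
    pol_natDegree A, pol_coeff_tr A, hir2, ?_⟩, Nat.dvd_mul_left _ _, ?_⟩
  · intro v hv hd
    by_cases hmv : (m : 𝓞 F) ∈ v.asIdeal
    · refine h.disc v hmv ?_
      have e1 : sp F (m ^ 2) ≤ v.asIdeal ^ 2 := by
        rw [Ideal.span_singleton_le_iff_mem, Nat.cast_pow]
        exact Ideal.pow_mem_pow hmv 2
      have e7 := dsc_cg (g := g) (fun j => e1 (hcg1 j) : Cg (v.asIdeal ^ 2) (pol A) f₀)
      have e8 : dsc g f₀ = dsc g (pol A) - (dsc g (pol A) - dsc g f₀) := by ring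
      rw [e8]
      exact Ideal.sub_mem _ hd e7
    · have h2v : (2 : 𝓞 F) ∈ v.asIdeal := by
        rw [Nat.cast_mul, Nat.cast_ofNat] at hv
        exact (v.isPrime.mem_or_mem hv).resolve_right hmv
      haveI : Finite (𝓞 F ⧸ v.asIdeal) := v.asIdeal.finiteQuotientOfFreeOfNeBot v.ne_bot
      haveI : IsDomain (𝓞 F ⧸ v.asIdeal) := Ideal.Quotient.isDomain v.asIdeal
      exact Pool.Agent.N195.PF.dscp F g v (pol A) (pol A) hg (pol_monic A) (pol_natDegree A)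
        (fun j => by rw [sub_self]; exact Ideal.zero_mem _) (sep_of_irr (hir2 v h2v))
        (Ideal.pow_le_self two_ne_zero hd)
  · exact fun j => sp_mono (dvd_pow_self m two_ne_zero) (hcg1 j)

/-- The theorem on the explicit 2-Selmer groups, all moduli. -/
theorem final_any (F : Type) [Field F] [NumberField F] {g : ℕ} (hg : 1 ≤ g) {m : ℕ}
    {f₀ : (𝓞 F)[X]} (hf₀ : ClsA g m f₀) :
    ∃ Q : Finset (HeightOneSpectrum (𝓞 F)),
      (∀ v ∈ Q, (2 : 𝓞 F) ∉ v.asIdeal ∧ (m : 𝓞 F) ∉ v.asIdeal) ∧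
    ∃ c : ℝ, 0 < c ∧ ∃ B₀ : ℕ, ∀ B ≥ B₀,
    {f : (𝓞 F)[X] | Ht g B f}.Finite ∧ c * ({f : (𝓞 F)[X] | Ht g B f}.ncard : ℝ) ≤
      ({f : (𝓞 F)[X] | Ht g B f ∧ Irreducible (fF f) ∧ Cg (sp F m) f f₀ ∧
        (∀ v : HeightOneSpectrum (𝓞 F), (2 : 𝓞 F) ∈ v.asIdeal → Irreducible (rd v.asIdeal f)) ∧
        Tws g {𝔭 | ∃ v ∈ Q, 𝔭 = v.asIdeal} f ∧ Uni {𝔭 | ∃ v ∈ Q, 𝔭 = v.asIdeal} f f ∧
        Min g f}.ncard : ℝ) := by
  obtain ⟨k, f₁, h1, h2, h3⟩ := exists_even hg hf₀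
  obtain ⟨Q, hQ, c, hc, B₀, hB₀⟩ := final F hg h1
  refine ⟨Q, fun v hv => ⟨fun h4 => hQ v hv ?_, fun h4 => hQ v hv (mem_of_dvd h2 h4)⟩, c, hc, B₀,
    fun B hB => ?_⟩
  · exact mem_of_dvd h1.two (by rw [Nat.cast_ofNat]; exact h4)
  obtain ⟨hfin, hle⟩ := hB₀ B hB
  refine ⟨hfin, hle.trans ?_⟩
  have h5 := Set.ncard_le_ncard
    (s := {f : (𝓞 F)[X] | Ht g B f ∧ Irreducible (fF f) ∧ Cg (sp F k) f f₁ ∧
        Tws g {𝔭 | ∃ v ∈ Q, 𝔭 = v.asIdeal} f ∧ Uni {𝔭 | ∃ v ∈ Q, 𝔭 = v.asIdeal} f f ∧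
        Min g f})
    (t := {f : (𝓞 F)[X] | Ht g B f ∧ Irreducible (fF f) ∧ Cg (sp F m) f f₀ ∧
        (∀ v : HeightOneSpectrum (𝓞 F), (2 : 𝓞 F) ∈ v.asIdeal → Irreducible (rd v.asIdeal f)) ∧
        Tws g {𝔭 | ∃ v ∈ Q, 𝔭 = v.asIdeal} f ∧ Uni {𝔭 | ∃ v ∈ Q, 𝔭 = v.asIdeal} f f ∧
        Min g f})
    (fun f hf => ⟨hf.1, hf.2.1, fun j => by
        have e1 := Ideal.add_mem _ (sp_mono h2 (hf.2.2.1 j)) (h3 j)
        rwa [sub_add_sub_cancel] at e1, fun v hv => by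
        have hv' : ((k : ℕ) : 𝓞 F) ∈ v.asIdeal :=
          mem_of_dvd h1.two (by rw [Nat.cast_ofNat]; exact hv)
        rw [rd_of_cg (sp_le' hv') hf.2.2.1]
        exact h1.irr v hv, hf.2.2.2.1, hf.2.2.2.2.1, hf.2.2.2.2.2⟩)
    (hfin.subset fun f hf => hf.1)
  exact_mod_cast h5

end Pool.Agent.H859.NF
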