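import Pool.Graph.R_pool_sql_team_seeded_63374d34.N710.PF.Exs

/-!
# Sets of primes which are one modulo a given number

After `N262/PQ/Exs.lean` (helper262), `N710/PF/Exs.lean` (helper710).
-/

set_option autoImplicit false
set_option linter.all false

open Polynomial NumberField
open scoped Classical

namespace Pool.Agent.H859.NF

open Pool.Agent.N783.PF

/-- Arbitrarily many primes which are `1` modulo `8` and modulo `m` and larger than `M`. -/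
theorem exists_primes (m : ℕ) (hm : 0 < m) (M r : ℕ) :
    ∃ S : Finset ℕ, S.card = r ∧ ∀ q ∈ S, q.Prime ∧ M < q ∧ q % 8 = 1 ∧ q ≡ 1 [MOD m] := by
  classical
  induction r with
  | zero => exact ⟨∅, rfl, by simp⟩
  | succ r ih =>
    obtain ⟨S, hS, hS2⟩ := ih
    haveI : NeZero (8 * m) := ⟨by omega⟩
    obtain ⟨q, hq1, hq2, hq3⟩ := Nat.forall_exists_prime_gt_and_eq_mod (q := 8 * m) (a := 1)
      isUnit_one (M + ∑ i ∈ S, i)
    have h8m : q ≡ 1 [MOD 8 * m] := by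
      have h : ((q : ℕ) : ZMod (8 * m)) = ((1 : ℕ) : ZMod (8 * m)) := by rw [hq3, Nat.cast_one]
      exact (ZMod.natCast_eq_natCast_iff q 1 (8 * m)).mp h
    have h8 : q % 8 = 1 := h8m.of_mul_right m
    have hmm : q ≡ 1 [MOD m] := h8m.of_mul_left 8
    have hqS : q ∉ S := by
      intro h
      have := Finset.single_le_sum (f := fun i : ℕ => i) (fun i _ => Nat.zero_le i) h
      omega
    refine ⟨insert q S, by rw [Finset.card_insert_of_notMem hqS, hS], fun i hi => ?_⟩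
    rw [Finset.mem_insert] at hi
    rcases hi with rfl | hi
    · exact ⟨hq2, by omega, h8, hmm⟩
    · exact hS2 i hi

/-- Existence of `S`. -/
theorem exs (F : Type) [Field F] [NumberField F] (g W m : ℕ) (hm : 0 < m) (hg : 1 ≤ g) (r : ℕ) :
    ∃ (S : Finset ℕ) (𝔮 : ℕ → Ideal (𝓞 F)) (h P : ℕ → (𝓞 F)[X]),
      GoodS g W S 𝔮 h P ∧ S.card = r ∧ ∀ q ∈ S, q ≡ 1 [MOD m] := by
  obtain ⟨S, hS, hS2⟩ := exists_primes m hm (W + (2 * g + 1) + (discr F).natAbs) r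
  have hdata : ∀ q : ℕ, ∃ (𝔮 : Ideal (𝓞 F)) (h A : (𝓞 F)[X]), q ∈ S →
    (∀ 𝔭 : Ideal (𝓞 F), 𝔭.IsPrime → (q : 𝓞 F) ∉ 𝔭 ^ 2) ∧
    𝔮.IsPrime ∧ (q : 𝓞 F) ∈ 𝔮 ∧
    h.Monic ∧ h.natDegree = 2 * g ∧ Irreducible (rd 𝔮 h) ∧
    A.Monic ∧ A.natDegree = 2 * g + 1 ∧ A.coeff (2 * g) = 0 ∧
    Cg 𝔮 A (X * h) ∧
    ∀ 𝔭 : Ideal (𝓞 F), 𝔭.IsPrime → (q : 𝓞 F) ∈ 𝔭 → 𝔭 ≠ 𝔮 → Irreducible (rd 𝔭 A) := by
    intro q
    by_cases hq : q ∈ S
    · obtain ⟨h1, h2, h3, -⟩ := hS2 q hq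
      obtain ⟨𝔮, h, A, hh⟩ := Pool.Agent.N710.PF.exists_data F g q hg h1 (by omega) (by omega)
      exact ⟨𝔮, h, A, fun _ => hh⟩
    · exact ⟨⊥, 0, 0, fun h => absurd h hq⟩
  choose 𝔮 h A hh using hdata
  refine ⟨S, 𝔮, h, A, fun q hq => ?_, hS, fun q hq => (hS2 q hq).2.2.2⟩
  obtain ⟨h1, h2, h3, -⟩ := hS2 q hq
  exact ⟨h1, by omega, by omega, h3, hh q hq⟩

end Pool.Agent.H859.NF
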