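import Pool.Agent.H859.NF.Fam
import Pool.Agent.H859.NF.Exs
import Pool.Graph.R_pool_sql_team_seeded_63374d34.N874.TF.All

/-!
# A positive proportion of the odd hyperelliptic Jacobians in every residue class, over a number field `F`,
# over many 2-extensions of `F`: counting

After `N874/TF/Cnt.lean` (helper874).
-/

set_option autoImplicit false
set_option linter.all false

open Polynomial IsDedekindDomain NumberField
open Pool.Agent.N352.PJ (dd)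
open Pool.Agent.N783.PF (Ov IsGen fF GoodS GoodF SqF Cg rd sp Dp Fam LBad Min S_GEN Ht S_PTS S_BAD
  S_EXS)
open Pool.Agent.N99.PF (card_fib ht_card ht_scale scale_inj good_card)
open Pool.Agent.N874.TF (Tws Uni Parts exists_nat nat_mem_prod selM irr_mod' uni_self)
open scoped Classical IntermediateField

namespace Pool.Agent.H859.NF

section cnt

variable {F : Type} [Field F] [NumberField F]

theorem goodS_mono {g W U : ℕ} (h : W ≤ U) {S : Finset ℕ} {𝔮 : ℕ → Ideal (𝓞 F)}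
    {s P : ℕ → (𝓞 F)[X]} (hS : GoodS g U S 𝔮 s P) : GoodS g W S 𝔮 s P := by
  intro q hq
  obtain ⟨h1, h2, h3⟩ := hS q hq
  exact ⟨h1, lt_of_le_of_lt h h2, h3⟩

/-- Twists by numbers which are one modulo `n`. -/
theorem cg_scale {n D : ℕ} (hD : D ≡ 1 [MOD n]) (f : (𝓞 F)[X]) :
    Cg (sp F n) (f.scaleRoots ((D : ℕ) : 𝓞 F)) f := by
  intro j
  rw [coeff_scaleRoots]
  have h1 : ((D : ℕ) : 𝓞 F) - 1 ∈ sp F n := by
    rw [Ideal.mem_span_singleton]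
    have h2 : ((n : ℕ) : ℤ) ∣ ((D : ℕ) : ℤ) - 1 := by
      have := (Nat.modEq_iff_dvd.1 hD.symm)
      simpa using this
    obtain ⟨c, hc⟩ := h2
    refine ⟨(c : 𝓞 F), ?_⟩
    have h3 := congrArg (fun z : ℤ => (z : 𝓞 F)) hc
    push_cast at h3
    exact h3
  have h4 : ∀ k : ℕ, ((D : ℕ) : 𝓞 F) ^ k - 1 ∈ sp F n := by
    intro k
    have h5 := sub_dvd_pow_sub_pow ((D : ℕ) : 𝓞 F) 1 k
    rw [one_pow] at h5
    exact Ideal.mem_of_dvd _ h5 h1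
  have e : f.coeff j * ((D : ℕ) : 𝓞 F) ^ (f.natDegree - j) - f.coeff j =
      f.coeff j * (((D : ℕ) : 𝓞 F) ^ (f.natDegree - j) - 1) := by ring
  rw [e]
  exact Ideal.mul_mem_left _ _ (h4 _)

theorem prod_modEq {n : ℕ} {J : Finset ℕ} (h : ∀ q ∈ J, q ≡ 1 [MOD n]) : Dp J ≡ 1 [MOD n] := by
  unfold Dp
  induction J using Finset.induction_on with
  | empty => exact Nat.ModEq.refl 1
  | insert a t ha ih =>
    rw [Finset.prod_insert ha]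
    have h1 := (h a (Finset.mem_insert_self a t)).mul
      (ih fun q hq => h q (Finset.mem_insert_of_mem hq))
    simpa using h1

theorem mainN (H : Parts) (hGEN : S_GEN) (h0 : S_PTS) (h2 : S_BAD)
    (F : Type) [Field F] [NumberField F] {g : ℕ} (hg : 1 ≤ g) {k : ℕ} {f₀ : (𝓞 F)[X]}
    (hf₀ : Cls g k f₀) :
    ∃ Q : Finset (HeightOneSpectrum (𝓞 F)), (∀ v ∈ Q, (k : 𝓞 F) ∉ v.asIdeal) ∧
    ∃ c : ℝ, 0 < c ∧ ∃ B₀ : ℕ, ∀ B ≥ B₀,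
    {f : (𝓞 F)[X] | Ht g B f}.Finite ∧ c * ({f : (𝓞 F)[X] | Ht g B f}.ncard : ℝ) ≤
      ({f : (𝓞 F)[X] | Ht g B f ∧ Irreducible (fF f) ∧ Cg (sp F k) f f₀ ∧
        Tws g {𝔭 | ∃ v ∈ Q, 𝔭 = v.asIdeal} f ∧ Uni {𝔭 | ∃ v ∈ Q, 𝔭 = v.asIdeal} f f ∧
        Min g f}.ncard : ℝ) := by
  obtain ⟨κ, htw⟩ := selM H hGEN F hg
  obtain ⟨C, K, hbad⟩ := h2 F g κ hg
  obtain ⟨W, U, f₁, hKW, hU0, hWU, hkU, hf₁, hcg0, c, hc, hfam⟩ := fame F g k (max K κ) hg hf₀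
  have hkU' : k ∣ U := dvd_trans (dvd_pow_self k two_ne_zero) hkU
  obtain ⟨-, Cp, hCp, -, hpt⟩ := h0 F
  set D : ℕ := Module.finrank ℚ F * dd g with hD
  obtain ⟨m, hm⟩ : ∃ m : ℕ, 2 * (C * (4 * 2 ^ κ : ℝ) ^ D) / c < 2 ^ m :=
    pow_unbounded_of_one_lt _ (by norm_num)
  obtain ⟨S, 𝔮, h, P, hSU, hcard, hSk⟩ := exs F g U k hf₀.pos hg m
  have hS : GoodS g W S 𝔮 h P := goodS_mono (Nat.le_of_dvd hU0 hWU) hSU
  have hqq : ∀ q ∈ S, (q : 𝓞 F) ∈ 𝔮 q := fun q hq => (hS q hq).2.2.2.2.2.2.1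
  have hpr : ∀ q ∈ S, (𝔮 q).IsPrime := fun q hq => (hS q hq).2.2.2.2.2.1
  have hq0 : ∀ q ∈ S, 𝔮 q ≠ ⊥ := by
    intro q hq h0
    have h1 := hqq q hq
    rw [h0, Ideal.mem_bot] at h1
    exact (hS q hq).1.ne_zero (by exact_mod_cast h1)
  -- the primes in `Q`
  obtain ⟨Q₀, hQ₀⟩ : ∃ Q₀ : Finset (HeightOneSpectrum (𝓞 F)), ∀ v : HeightOneSpectrum (𝓞 F),
      v ∈ Q₀ ↔ ∃ q ∈ S, v.asIdeal = 𝔮 q := by
    let φ : {q // q ∈ S} → HeightOneSpectrum (𝓞 F) := fun q =>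
      ⟨𝔮 q.1, hpr q.1 q.2, hq0 q.1 q.2⟩
    refine ⟨S.attach.image φ, fun v => ?_⟩
    rw [Finset.mem_image]
    constructor
    · rintro ⟨q, -, rfl⟩
      exact ⟨q.1, q.2, rfl⟩
    · rintro ⟨q, hq, hv⟩
      exact ⟨⟨q, hq⟩, Finset.mem_attach _ _, HeightOneSpectrum.ext hv.symm⟩
  have hQset : {𝔭 : Ideal (𝓞 F) | ∃ v ∈ Q₀, 𝔭 = v.asIdeal} = {𝔭 | ∃ q ∈ S, 𝔭 = 𝔮 q} := by
    ext 𝔭
    constructor
    · rintro ⟨v, hv, rfl⟩
      exact (hQ₀ v).1 hv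
    · rintro ⟨q, hq, rfl⟩
      exact ⟨⟨𝔮 q, hpr q hq, hq0 q hq⟩, (hQ₀ _).2 ⟨q, hq, rfl⟩, rfl⟩
  have hne : ∀ q ∈ S, ∀ v : HeightOneSpectrum (𝓞 F),
      (q : 𝓞 F) ∈ v.asIdeal → (U : 𝓞 F) ∈ v.asIdeal → False := by
    intro q hq v h4 h5
    obtain ⟨p, hp, hpU, hpv⟩ := Pool.Agent.N951.PF.prime_factor v.asIdeal v.isPrime U hU0 h5
    have h6 := Pool.Agent.N874.QM.below_unique (hS q hq).1 hp h4 hpv
    have h7 := Nat.le_of_dvd hU0 hpU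
    have h8 := (hSU q hq).2.1
    omega
  refine ⟨Q₀, ?_, ?_⟩
  · intro v hv hkv
    obtain ⟨q, hq, hvq⟩ := (hQ₀ v).1 hv
    exact hne q hq v (by rw [hvq]; exact hqq q hq) (mem_of_dvd hkU' hkv)
  rw [hQset]
  obtain ⟨B₁₀, hB₁₀⟩ := hfam S 𝔮 h P hSU
  obtain ⟨N₀, hN₀⟩ := hbad W S 𝔮 h P ((le_max_left _ _).trans hKW) hS
  set Q : ℕ := ∏ q ∈ S, q with hQ
  have hq1 : ∀ q ∈ S, 1 ≤ q := fun q hq => (hS q hq).1.pos
  have hQ1 : 1 ≤ Q := Finset.one_le_prod' hq1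
  set Pn : ℕ := (∏ q ∈ S, q ^ (2 * g)) ^ Module.finrank ℚ F with hPn
  have hP0 : (0 : ℝ) < Pn := by
    have : 0 < Pn := pow_pos (Finset.prod_pos fun q hq => pow_pos (hq1 q hq) _) _
    exact_mod_cast this
  have hQ0 : (0 : ℝ) < Q := by exact_mod_cast hQ1
  set X₀ : ℕ := max (max B₁₀ (4 ^ N₀)) 1 with hX₀
  refine ⟨c / 2 / (Pn * 2 ^ m * ((2 * Cp) ^ (2 * g) * (2 * Q) ^ D)), by positivity, X₀ * Q,
    fun B hB => ?_⟩
  set B₁ : ℕ := B / Q with hB₁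
  have hBX : X₀ ≤ B₁ := (Nat.le_div_iff_mul_le hQ1).2 hB
  have hb1 : 1 ≤ B₁ := (le_max_right _ _).trans hBX
  have hb2 : B₁₀ ≤ B₁ := ((le_max_left _ _).trans (le_max_left _ _)).trans hBX
  have hb3 : 4 ^ N₀ ≤ B₁ := ((le_max_right _ _).trans (le_max_left _ _)).trans hBX
  have hBQ : B₁ * Q ≤ B := Nat.div_mul_le_self B Q
  have hBQ2 : B ≤ 2 * Q * B₁ := by
    have e1 : B < B₁ * Q + Q := by
      have := Nat.lt_div_mul_add (a := B) (b := Q) hQ1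
      exact this
    nlinarith
  have hB1 : 1 ≤ B := le_trans (by nlinarith) hBQ
  obtain ⟨N, hNa, hNb⟩ : ∃ N : ℕ, 2 ^ κ * B₁ ≤ 4 ^ N ∧ 4 ^ N ≤ 4 * (2 ^ κ * B₁) := by
    refine ⟨Nat.log 4 (2 ^ κ * B₁) + 1, (Nat.lt_pow_succ_log_self (by norm_num) _).le, ?_⟩
    rw [pow_succ, mul_comm]
    refine Nat.mul_le_mul_left 4 (Nat.pow_log_le_self 4 ?_)
    positivity
  have hNN : N₀ ≤ N := by
    have e1 : 4 ^ N₀ ≤ 4 ^ N := hb3.trans (le_trans (Nat.le_mul_of_pos_left _ (by positivity)) hNa)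
    exact (Nat.pow_le_pow_iff_right (by norm_num)).1 e1
  obtain ⟨hfin, hBd⟩ := hN₀ N hNN
  refine ⟨(ht_card hCp hpt g B hB1).1, ?_⟩
  set Hs := {f : (𝓞 F)[X] | Ht g B f ∧ Irreducible (fF f) ∧ Cg (sp F k) f f₀ ∧
        Tws g {𝔭 | ∃ q ∈ S, 𝔭 = 𝔮 q} f ∧ Uni {𝔭 | ∃ q ∈ S, 𝔭 = 𝔮 q} f f ∧
        Min g f} with hH
  set G := {f : (𝓞 F)[X] | Fam g B₁ W f₁ S P f ∧ Cg (sp F U) f f₁} \ {f : (𝓞 F)[X] | LBad g N κ S 𝔮 P f} with hGdef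
  have hHf : Hs.Finite := (ht_card hCp hpt g B hB1).1.subset fun f hf => hf.1
  have hGf : G.Finite := (ht_card hCp hpt g B₁ hb1).1.subset fun f hf => hf.1.1.ht
  have hG : c / 2 * (B₁ : ℝ) ^ D ≤ Pn * (G.ncard : ℝ) := by
    refine good_card (C := C) (m := m) (κ := κ) hc hP0 B₁ N (hB₁₀ B₁ hb2) hfin ?_ hm ?_
    · rw [hcard] at hBd
      have e2 : Module.finrank ℚ F * (2 * N * dd g) = 2 * N * D := by rw [hD]; ring
      rw [e2] at hBd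
      exact_mod_cast hBd
    · exact_mod_cast hNb
  have hJ0 : ∀ J ⊆ S, ((Dp J : ℕ) : 𝓞 F) ≠ 0 := by
    intro J hJ
    have : 0 < ∏ q ∈ J, q := Finset.prod_pos fun q hq => hq1 q (hJ hq)
    have h5 : (Dp J : ℕ) ≠ 0 := this.ne'
    exact_mod_cast h5
  have hcard1 := card_fib hGf hHf S (fun J f => f.scaleRoots ((Dp J : ℕ) : 𝓞 F)) (by
      intro f hf
      obtain ⟨hsqf, J, hJ, hirr, hsel, hmin⟩ := htw B₁ N W f₁ S 𝔮 h P f
        ((le_max_right _ _).trans hKW) hf₁ hS hf.1.1 hNa hb1 hf.2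
      have hDle : Dp J ≤ Q :=
        Finset.prod_le_prod_of_subset_of_one_le' hJ fun q hq _ => hq1 q hq
      refine ⟨J, hJ, ht_scale hf.1.1.ht ((Nat.mul_le_mul_left _ hDle).trans hBQ), hirr, ?_,
        ⟨Dp J, f, hsqf, rfl, ?_, ?_, ?_⟩, uni_self hf.1.1.ht.mon hsel, hmin⟩
      · intro j
        have e1 := cg_scale (prod_modEq fun q hq => hSk q (hJ hq)) f j
        have e2 := sp_mono hkU' (hf.1.2 j)
        have e3 := sp_mono (dvd_pow_self k two_ne_zero) (hcg0 j)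
        have e4 := Ideal.add_mem _ (Ideal.add_mem _ e1 e2) e3
        have e5 : (f.scaleRoots ((Dp J : ℕ) : 𝓞 F)).coeff j - f.coeff j + (f.coeff j - f₁.coeff j) +
            (f₁.coeff j - f₀.coeff j) =
            (f.scaleRoots ((Dp J : ℕ) : 𝓞 F)).coeff j - f₀.coeff j := by ring
        rw [e5] at e4
        exact e4
      · refine Finset.squarefree_prod_of_pairwise_isCoprime ?_ fun q hq =>
          (hS q (hJ hq)).1.prime.squarefree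
        intro a ha b hb hab
        exact Nat.coprime_iff_isRelPrime.1
          ((Nat.coprime_primes (hS a (hJ ha)).1 (hS b (hJ hb)).1).2 hab)
      · intro q hq hqD
        obtain ⟨p, hp, hqp⟩ := (hq.prime.dvd_finset_prod_iff _).1 hqD
        have h5 := (Nat.prime_dvd_prime_iff_eq hq (hS p (hJ hp)).1).1 hqp
        rw [h5]
        exact (hS p (hJ hp)).2.2.2.1
      · intro v hv
        obtain ⟨q, hq, hqv⟩ := nat_mem_prod hv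
        by_cases hvq : v.asIdeal = 𝔮 q
        · exact Or.inl ⟨q, hJ hq, hvq⟩
        · right
          rw [Pool.Agent.N78.PF.rd_eq (Pool.Agent.N78.PF.sp_le hqv) (hf.1.1.con q (hJ hq))]
          exact (hS q (hJ hq)).2.2.2.2.2.2.2.2.2.2.2.2.2.2 v.asIdeal v.isPrime hqv hvq) (by
      intro J hJ x hx y hy hxy
      exact scale_inj (hJ0 J hJ) (by rw [hx.1.1.ht.deg, hy.1.1.ht.deg]) hxy)
  rw [hcard] at hcard1
  have hcard' : (G.ncard : ℝ) ≤ 2 ^ m * Hs.ncard := by exact_mod_cast hcard1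
  have hM' : ({f : (𝓞 F)[X] | Ht g B f}.ncard : ℝ) ≤
      (2 * Cp) ^ (2 * g) * (2 * Q) ^ D * (B₁ : ℝ) ^ D := by
    have e1 : ({f : (𝓞 F)[X] | Ht g B f}.ncard : ℝ) ≤ (2 * Cp) ^ (2 * g) * (B : ℝ) ^ D :=
      (ht_card hCp hpt g B hB1).2
    refine e1.trans ?_
    rw [mul_assoc, ← mul_pow]
    have e2 : (B : ℝ) ≤ 2 * Q * B₁ := by exact_mod_cast hBQ2
    gcongr
  calc c / 2 / (Pn * 2 ^ m * ((2 * Cp) ^ (2 * g) * (2 * Q) ^ D)) *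
        ({f : (𝓞 F)[X] | Ht g B f}.ncard : ℝ)
      ≤ c / 2 / (Pn * 2 ^ m * ((2 * Cp) ^ (2 * g) * (2 * Q) ^ D)) *
        ((2 * Cp) ^ (2 * g) * (2 * Q) ^ D * (B₁ : ℝ) ^ D) :=
        mul_le_mul_of_nonneg_left hM' (by positivity)
    _ = c / 2 * (B₁ : ℝ) ^ D / (Pn * 2 ^ m) := by
        field_simp
    _ ≤ (Pn * (G.ncard : ℝ)) / (Pn * 2 ^ m) := by gcongr
    _ ≤ (Pn * (2 ^ m * Hs.ncard)) / (Pn * 2 ^ m) := by gcongr
    _ = Hs.ncard := by field_simp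

end cnt

/-- The theorem on the explicit 2-Selmer groups. -/
theorem final (F : Type) [Field F] [NumberField F] {g : ℕ} (hg : 1 ≤ g) {k : ℕ} {f₀ : (𝓞 F)[X]}
    (hf₀ : Cls g k f₀) :
    ∃ Q : Finset (HeightOneSpectrum (𝓞 F)), (∀ v ∈ Q, (k : 𝓞 F) ∉ v.asIdeal) ∧
    ∃ c : ℝ, 0 < c ∧ ∃ B₀ : ℕ, ∀ B ≥ B₀,
    {f : (𝓞 F)[X] | Ht g B f}.Finite ∧ c * ({f : (𝓞 F)[X] | Ht g B f}.ncard : ℝ) ≤
      ({f : (𝓞 F)[X] | Ht g B f ∧ Irreducible (fF f) ∧ Cg (sp F k) f f₀ ∧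
        Tws g {𝔭 | ∃ v ∈ Q, 𝔭 = v.asIdeal} f ∧ Uni {𝔭 | ∃ v ∈ Q, 𝔭 = v.asIdeal} f f ∧
        Min g f}.ncard : ℝ) :=
  mainN Pool.Agent.N874.TF.parts Pool.Agent.N667.PF.gen Pool.Agent.N490.PF.pts
    Pool.Agent.N783.PF.bad F hg hf₀

end Pool.Agent.H859.NF
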