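import Pool.Graph.R_pool_sql_team_seeded_63374d34.N300.TF.Famf
import Pool.Graph.R_pool_sql_team_seeded_63374d34.N250.TF.Irr

/-!
# The family over a number field in an arbitrary residue class

After `N300/TF/Famf.lean` (helper300), `N951/PF/Fam.lean` (helper951).
-/

set_option autoImplicit false
set_option linter.all false

open Polynomial NumberField IsDedekindDomain
open scoped Classical

namespace Pool.Agent.H859.NF

open Pool.Agent.N352.PJ (dd pol dis Dy D2)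
open Pool.Agent.N352.PF (dg Bal nv rv Bz Bx S_BX S_SML S_WK S_STR S_DSC S_GF S_PF bxT)
open Pool.Agent.N783.PF (Bd Cg sp rd Ht GoodS GoodF Fam S_FAM fF dsc)
open Pool.Agent.N951.PF
open Pool.Agent.N874.TF (S_IRRK S_FAMF)

section

variable {F : Type} [Field F] [NumberField F]

theorem dsc_cg {g : ℕ} {𝔞 : Ideal (𝓞 F)} {f f' : (𝓞 F)[X]} (h : Cg 𝔞 f f') :
    dsc g f - dsc g f' ∈ 𝔞 := by
  have h1 : f.map (Ideal.Quotient.mk 𝔞) = f'.map (Ideal.Quotient.mk 𝔞) := by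
    ext j
    rw [coeff_map, coeff_map]
    exact Ideal.Quotient.eq.2 (h j)
  have h2 : Ideal.Quotient.mk 𝔞 (dsc g f) = Ideal.Quotient.mk 𝔞 (dsc g f') := by
    rw [dsc, dsc, ← resultant_map_map, ← resultant_map_map, ← derivative_map, ← derivative_map, h1]
  exact Ideal.Quotient.eq.1 h2

theorem rd_of_cg {𝔞 𝔭 : Ideal (𝓞 F)} (hle : 𝔞 ≤ 𝔭) {f f' : (𝓞 F)[X]} (h : Cg 𝔞 f f') :
    rd 𝔭 f = rd 𝔭 f' := by
  ext j
  rw [rd, rd, coeff_map, coeff_map, Ideal.Quotient.eq]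
  exact hle (h j)

theorem sp_le' {q : ℕ} {𝔭 : Ideal (𝓞 F)} (h : (q : 𝓞 F) ∈ 𝔭) : sp F q ≤ 𝔭 :=
  (Ideal.span_singleton_le_iff_mem _).2 h

theorem mem_of_dvd {a b : ℕ} (h : a ∣ b) {𝔭 : Ideal (𝓞 F)} (ha : (a : 𝓞 F) ∈ 𝔭) :
    (b : 𝓞 F) ∈ 𝔭 := by
  obtain ⟨c, rfl⟩ := h
  push_cast
  exact Ideal.mul_mem_right _ _ ha

theorem sp_mono {a b : ℕ} (h : a ∣ b) : sp F b ≤ sp F a :=
  sp_le' (mem_of_dvd h (Ideal.mem_span_singleton_self _))

end

/-- The conditions on the residue class. -/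
structure Cls {F : Type} [Field F] [NumberField F] (g m : ℕ) (f₀ : (𝓞 F)[X]) : Prop where
  pos : 0 < m
  two : 2 ∣ m
  mon : f₀.Monic
  deg : f₀.natDegree = 2 * g + 1
  tr : f₀.coeff (2 * g) = 0
  irr : ∀ v : HeightOneSpectrum (𝓞 F), (2 : 𝓞 F) ∈ v.asIdeal → Irreducible (rd v.asIdeal f₀)
  disc : ∀ v : HeightOneSpectrum (𝓞 F), (m : 𝓞 F) ∈ v.asIdeal → dsc g f₀ ∉ v.asIdeal ^ 2

/-- The residue class is refined: the polynomial `f₁`. -/
theorem exists_class (hI : S_IRRK) (F : Type) [Field F] [NumberField F] (g m K N : ℕ) (hg : 1 ≤ g)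
    {f₀ : (𝓞 F)[X]} (hf₀ : Cls g m f₀) :
    ∃ (W U : ℕ) (f₁ : (𝓞 F)[X]), K ≤ W ∧ 0 < U ∧ W ∣ U ∧ m ^ 2 ∣ U ∧
      (∀ p : ℕ, p.Prime → p ≤ N → p ∣ U) ∧ GoodF g W f₁ ∧ Cg (sp F (m ^ 2)) f₁ f₀ ∧
      ∀ v : HeightOneSpectrum (𝓞 F), (U : 𝓞 F) ∈ v.asIdeal → (m : 𝓞 F) ∉ v.asIdeal →
        Irreducible (rv v f₁) := by
  obtain ⟨p₀, hp₀K, hp₀⟩ := Nat.exists_infinite_primes (K + m + 1)
  obtain ⟨Wg, fg, hmon, hdeg, htr, hW0, htwo, hirr, hsep, hW⟩ :=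
    Pool.Agent.N300.TF.gfi hI F g (max p₀ N) hg
  obtain ⟨S₀, hS₀⟩ : ∃ S₀ : Finset ℕ, ∀ p, p ∈ S₀ ↔ p.Prime ∧ p ≤ max p₀ N ∧ ¬ p ∣ m := by
    refine ⟨(Finset.range (max p₀ N + 1)).filter fun p => p.Prime ∧ ¬ p ∣ m, fun p => ?_⟩
    rw [Finset.mem_filter, Finset.mem_range]
    constructor
    · rintro ⟨h1, h2, h3⟩
      exact ⟨h2, by omega, h3⟩
    · rintro ⟨h1, h2, h3⟩
      exact ⟨by omega, h1, h3⟩
  have hcrt : ∀ j : Fin (2 * g), ∃ x : 𝓞 F, ((m ^ 2 : ℕ) : 𝓞 F) ∣ x - f₀.coeff j ∧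
      ∀ q ∈ S₀, (q : 𝓞 F) ∣ x - fg.coeff j := fun j =>
    crt (m ^ 2) S₀ (fun q hq => ⟨((hS₀ q).1 hq).1, fun hd =>
      ((hS₀ q).1 hq).2.2 (((hS₀ q).1 hq).1.dvd_of_dvd_pow hd)⟩) _ _
  choose A hA1 hA2 using hcrt
  obtain ⟨R, hR⟩ : ∃ R : ℕ, R = ∏ q ∈ S₀, q := ⟨_, rfl⟩
  have hR0 : 0 < R := by
    rw [hR]
    exact Finset.prod_pos fun q hq => ((hS₀ q).1 hq).1.pos
  have hm2 : 0 < m ^ 2 := pow_pos hf₀.pos 2
  have h2m2 : 2 ∣ m ^ 2 := dvd_trans hf₀.two (dvd_pow_self m two_ne_zero)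
  have hp₀S : p₀ ∈ S₀ := by
    refine (hS₀ p₀).2 ⟨hp₀, le_max_left _ _, fun hd => ?_⟩
    have := Nat.le_of_dvd hf₀.pos hd
    omega
  have hp₀R : p₀ ∣ R := by
    rw [hR]
    exact Finset.dvd_prod_of_mem (fun q => q) hp₀S
  have hcg1 : Cg (sp F (m ^ 2)) (pol A) f₀ := by
    apply cg_pol A hf₀.mon hf₀.deg hf₀.tr
    intro j
    rw [Ideal.mem_span_singleton]
    exact hA1 j
  have hcg2 : ∀ q ∈ S₀, Cg (sp F q) (pol A) fg := by
    intro q hq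
    apply cg_pol A hmon hdeg htr
    intro j
    rw [Ideal.mem_span_singleton]
    exact hA2 j q hq
  have hRv : ∀ v : Ideal (𝓞 F), v.IsPrime → (R : 𝓞 F) ∈ v → ∃ q ∈ S₀, (q : 𝓞 F) ∈ v := by
    intro v hv h
    rw [hR, Nat.cast_prod] at h
    exact (Ideal.IsPrime.prod_mem_iff (hp := hv)).1 h
  have hirR : ∀ v : HeightOneSpectrum (𝓞 F), (R : 𝓞 F) ∈ v.asIdeal →
      Irreducible (rd v.asIdeal (pol A)) := by
    intro v hv
    obtain ⟨q, hq, hqv⟩ := hRv v.asIdeal v.isPrime hv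
    rw [rd_of_cg (sp_le' hqv) (hcg2 q hq)]
    exact hirr v (mem_of_dvd (hW q ((hS₀ q).1 hq).1 ((hS₀ q).1 hq).2.1) hqv)
  have hir2 : ∀ v : HeightOneSpectrum (𝓞 F), (2 : 𝓞 F) ∈ v.asIdeal →
      Irreducible (rd v.asIdeal (pol A)) := by
    intro v hv
    rw [rd_of_cg (sp_le' (mem_of_dvd h2m2 (by rw [Nat.cast_ofNat]; exact hv))) hcg1]
    exact hf₀.irr v hv
  have hne : ∀ (𝔭 : Ideal (𝓞 F)) (n : ℕ), 0 < n → (n : 𝓞 F) ∈ 𝔭 → 𝔭 ≠ ⊥ := by
    intro 𝔭 n hn hm h0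
    rw [h0, Ideal.mem_bot] at hm
    have : n = 0 := by exact_mod_cast hm
    omega
  refine ⟨2 * R, m ^ 2 * R, pol A, ?_, Nat.mul_pos hm2 hR0, Nat.mul_dvd_mul_right h2m2 R,
    Nat.dvd_mul_right _ _, ?_, ⟨pol_monic A, pol_natDegree A, pol_coeff_tr A, by omega,
      Nat.dvd_mul_right _ _, ?_, ?_⟩, hcg1, ?_⟩
  · have := Nat.le_of_dvd hR0 hp₀R
    omega
  · intro p hp hpN
    by_cases hpm : p ∣ m
    · exact (dvd_trans hpm (dvd_pow_self m two_ne_zero)).trans (Nat.dvd_mul_right _ _)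
    · have hpS : p ∈ S₀ := (hS₀ p).2 ⟨hp, hpN.trans (le_max_right _ _), hpm⟩
      refine Dvd.dvd.mul_left ?_ _
      rw [hR]
      exact Finset.dvd_prod_of_mem (fun q => q) hpS
  · intro 𝔭 hp h2
    exact hir2 ⟨𝔭, hp, hne 𝔭 2 two_pos (by exact_mod_cast h2)⟩ h2
  · intro 𝔭 hp hWm
    have hb : 𝔭 ≠ ⊥ := hne 𝔭 (2 * R) (by omega) hWm
    have hi : Irreducible (rd 𝔭 (pol A)) := by
      rw [Nat.cast_mul] at hWm
      rcases hp.mem_or_mem hWm with h | h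
      · exact hir2 ⟨𝔭, hp, hb⟩ (by rw [Nat.cast_ofNat] at h; exact h)
      · exact hirR ⟨𝔭, hp, hb⟩ h
    haveI : Finite (𝓞 F ⧸ 𝔭) := Ideal.finiteQuotientOfFreeOfNeBot 𝔭 hb
    haveI : IsDomain (𝓞 F ⧸ 𝔭) := Ideal.Quotient.isDomain 𝔭
    exact sep_of_irr hi
  · intro v hv hmv
    rw [Nat.cast_mul] at hv
    rcases v.isPrime.mem_or_mem hv with h | h
    · exfalso
      rw [Nat.cast_pow] at h
      exact hmv (v.isPrime.mem_of_pow_mem 2 h)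
    · exact hirR v h

/-- Many polynomials of the family in the residue class. -/
theorem fame_core (h1 : S_BX) (h2 : S_SML) (h3 : S_WK) (h4 : S_STR) (h5 : S_DSC) (hI : S_IRRK)
    (h7 : S_PF) (F : Type) [Field F] [NumberField F] (g m K : ℕ) (hg : 1 ≤ g)
    {f₀ : (𝓞 F)[X]} (hf₀ : Cls g m f₀) :
    ∃ (W U : ℕ) (f₁ : (𝓞 F)[X]), K ≤ W ∧ 0 < U ∧ W ∣ U ∧ m ^ 2 ∣ U ∧ GoodF g W f₁ ∧
      Cg (sp F (m ^ 2)) f₁ f₀ ∧
      ∃ c : ℝ, 0 < c ∧ ∀ (S : Finset ℕ) (𝔮 : ℕ → Ideal (𝓞 F)) (h P : ℕ → (𝓞 F)[X]),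
        GoodS g U S 𝔮 h P → ∃ B₀ : ℕ, ∀ B ≥ B₀,
        c * (B : ℝ) ^ (Module.finrank ℚ F * dd g) ≤
          (((∏ q ∈ S, q ^ (2 * g)) ^ Module.finrank ℚ F : ℕ) : ℝ) *
          ({f : (𝓞 F)[X] | Fam g B W f₁ S P f ∧ Cg (sp F U) f f₁}.ncard : ℝ) := by
  obtain ⟨M, C₂, hC₂, hM⟩ := h2 F g hg
  obtain ⟨C₁, hC₁, hBX⟩ := h1 F g
  obtain ⟨W, U, f₁, hKW, hU0, hWU, hmU, hW, hgood, hcg0, hUi⟩ :=
    exists_class hI F g m K (max M (2 * g + 1)) hg hf₀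
  have hmon := hgood.mon
  have hdeg := hgood.deg
  have htr := hgood.tr
  refine ⟨W, U, f₁, hKW, hU0, hWU, hmU, hgood, hcg0,
    1 / (2 * C₁ * (U : ℝ) ^ (2 * g * dg F)), by positivity, fun S 𝔮 h P hS => ?_⟩
  obtain ⟨Q, hQ⟩ : ∃ Q : ℕ, Q = ∏ q ∈ S, q := ⟨_, rfl⟩
  have hQ0 : 0 < Q := by
    rw [hQ]
    exact Finset.prod_pos fun q hq => (hS q hq).1.pos
  have hWQ : 0 < U * Q := Nat.mul_pos hU0 hQ0
  -- residues
  have hcrt : ∀ j : Fin (2 * g), ∃ x : 𝓞 F, (U : 𝓞 F) ∣ x - f₁.coeff j ∧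
      ∀ q ∈ S, (q : 𝓞 F) ∣ x - (P q).coeff j := fun j =>
    crt U S (fun q hq => ⟨(hS q hq).1, fun hd =>
      absurd (Nat.le_of_dvd hU0 hd) (by have := (hS q hq).2.1; omega)⟩) _ _
  choose A hA1 hA2 using hcrt
  obtain ⟨B₁, hB₁⟩ := h4 F g hg (1 / (4 * C₁ * ((U * Q : ℕ) : ℝ) ^ (2 * g * dg F))) (by positivity)
  refine ⟨max B₁ (max (C₁ * (U * Q)) (C₂ * (U * Q))), fun B hB => ?_⟩
  have hBB1 : B₁ ≤ B := (le_max_left _ _).trans hB
  have hBC1 : C₁ * (U * Q) ≤ B := ((le_max_left _ _).trans (le_max_right _ _)).trans hB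
  have hBC2 : C₂ * (U * Q) ≤ B := ((le_max_right _ _).trans (le_max_right _ _)).trans hB
  obtain ⟨hfin, hcard, -⟩ := hBX B (U * Q) A hWQ hBC1
  obtain ⟨hfin0, -, -⟩ := hBX B 1 (fun _ => 0) one_pos
    (le_trans (Nat.mul_le_mul_left C₁ hWQ) hBC1)
  have hBz : (Bz F g B).Finite := by
    refine hfin0.subset ?_
    intro a ha
    exact ⟨ha, fun j => by simp⟩
  have hsml := hM B (U * Q) A hWQ hBC2
  have hstr := hB₁ B hBB1
  set V := Bx g B (U * Q) A with hV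
  set U1 := {a ∈ V | ∃ v : HeightOneSpectrum (𝓞 F), M < nv v ∧ nv v ^ 2 < B ^ dg F ∧
    ((U * Q : ℕ) : 𝓞 F) ∉ v.asIdeal ∧ dis a ∈ v.asIdeal ^ 2} with hU1
  set U2 := {a ∈ Bz F g B | ∃ v : HeightOneSpectrum (𝓞 F), B ^ dg F ≤ nv v ^ 2 ∧
    dis a ∈ v.asIdeal ∧ D2 a ∈ v.asIdeal} with hU2
  have hU1f : U1.Finite := hfin.subset (Set.sep_subset _ _)
  have hU2f : U2.Finite := hBz.subset (Set.sep_subset _ _)
  -- the good ones are in the family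
  have key : pol '' (V \ (U1 ∪ U2)) ⊆
      {f : (𝓞 F)[X] | Fam g B W f₁ S P f ∧ Cg (sp F U) f f₁} := by
    rintro _ ⟨a, ⟨haU, ha⟩, rfl⟩
    have haB : a ∈ Bz F g B := haU.1
    have haR : ∀ j, ((U * Q : ℕ) : 𝓞 F) ∣ a j - A j := haU.2
    have hone : Cg (sp F U) (pol a) f₁ := by
      apply cg_pol a hmon hdeg htr
      intro j
      rw [Ideal.mem_span_singleton]
      have e1 : (U : 𝓞 F) ∣ a j - A j := dvd_trans (by push_cast; exact dvd_mul_right _ _) (haR j)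
      have e2 : a j - f₁.coeff j = (a j - A j) + (A j - f₁.coeff j) := by ring
      rw [e2]
      exact dvd_add e1 (hA1 j)
    have hcon : ∀ q ∈ S, Cg (sp F q) (pol a) (P q) := by
      intro q hq
      obtain ⟨hq1, hq2, hq3, hq4, hq5, hq6, hq7, hq8, hq9, hq10, hq11, hq12, hq13, hq14, hq15⟩ :=
        hS q hq
      apply cg_pol a hq11 hq12 hq13
      intro j
      rw [Ideal.mem_span_singleton]
      have e0 : (q : 𝓞 F) ∣ ((U * Q : ℕ) : 𝓞 F) := by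
        have e3 : q ∣ U * Q := by
          rw [hQ]
          exact Dvd.dvd.mul_left (Finset.dvd_prod_of_mem (fun q => q) hq) U
        exact Nat.cast_dvd_cast e3
      have e1 : (q : 𝓞 F) ∣ a j - A j := dvd_trans e0 (haR j)
      have e2 : a j - (P q).coeff j = (a j - A j) + (A j - (P q).coeff j) := by ring
      rw [e2]
      exact dvd_add e1 (hA2 j q hq)
    refine ⟨⟨ht_pol haB, fun j => sp_mono hWU (hone j), hcon, fun 𝔭 hp hb hPd => ?_⟩, hone⟩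
    obtain ⟨v, hv⟩ : ∃ v : HeightOneSpectrum (𝓞 F), v.asIdeal = 𝔭 := ⟨⟨𝔭, hp, hb⟩, rfl⟩
    subst hv
    have hPd' : dis a ∈ v.asIdeal ^ 2 := hPd
    have hPd1 : Pool.Agent.N352.PF.dsc g (pol a) ∈ v.asIdeal :=
      Ideal.pow_le_self two_ne_zero hPd
    haveI : Finite (𝓞 F ⧸ v.asIdeal) := v.asIdeal.finiteQuotientOfFreeOfNeBot v.ne_bot
    haveI : IsDomain (𝓞 F ⧸ v.asIdeal) := Ideal.Quotient.isDomain v.asIdeal
    have hPm : (m : 𝓞 F) ∉ v.asIdeal := by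
      intro hd
      refine hf₀.disc v hd ?_
      have e1 : sp F (m ^ 2) ≤ v.asIdeal ^ 2 := by
        rw [Ideal.span_singleton_le_iff_mem, Nat.cast_pow]
        exact Ideal.pow_mem_pow hd 2
      have e2 : Cg (v.asIdeal ^ 2) (pol a) f₀ := by
        intro j
        have e3 := sp_mono hmU (hone j)
        have e4 := e1 e3
        have e5 := e1 (hcg0 j)
        have e6 : (pol a).coeff j - f₀.coeff j =
            ((pol a).coeff j - f₁.coeff j) + (f₁.coeff j - f₀.coeff j) := by ring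
        rw [e6]
        exact Ideal.add_mem _ e4 e5
      have e7 := dsc_cg (g := g) e2
      have e8 : dsc g f₀ = dsc g (pol a) - (dsc g (pol a) - dsc g f₀) := by ring
      rw [e8]
      exact Ideal.sub_mem _ hPd e7
    have hPW : (U : 𝓞 F) ∉ v.asIdeal := by
      intro hd
      refine h5 F g v (pol a) f₁ hg (pol_monic a) (pol_natDegree a) ?_
        (sep_of_irr (hUi v hd hPm)) hPd1
      intro j
      exact (Ideal.span_singleton_le_iff_mem _).2 hd (hone j)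
    have hPS : ∀ q ∈ S, (q : 𝓞 F) ∉ v.asIdeal := by
      intro q hq hd
      obtain ⟨hq1, hq2, hq3, hq4, hq5, hq6, hq7, hq8, hq9, hq10, hq11, hq12, hq13, hq14, hq15⟩ :=
        hS q hq
      have hc : ∀ j, (pol a).coeff j - (P q).coeff j ∈ v.asIdeal := fun j =>
        (Ideal.span_singleton_le_iff_mem _).2 hd (hcon q hq j)
      by_cases hv : v.asIdeal = 𝔮 q
      · refine h5 F g v (pol a) (X * h q) hg (pol_monic a) (pol_natDegree a) ?_ ?_ hPd1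
        · intro j
          have e1 : (pol a).coeff j - (X * h q).coeff j =
              ((pol a).coeff j - (P q).coeff j) + ((P q).coeff j - (X * h q).coeff j) := by ring
          rw [e1]
          refine Ideal.add_mem _ (hc j) ?_
          rw [hv]
          exact hq14 j
        · have e1 : rv v (X * h q) = X * rv v (h q) := by
            rw [rv, rv, Polynomial.map_mul, Polynomial.map_X]
          rw [e1]
          have e2 : Irreducible (rv v (h q)) := by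
            have e3 : Irreducible (rd v.asIdeal (h q)) := by
              rw [hv]
              exact hq10
            exact e3
          refine sep_X_mul e2 ?_
          rw [rv, hq8.natDegree_map, hq9]
          omega
      · refine h5 F g v (pol a) (P q) hg (pol_monic a) (pol_natDegree a) hc ?_ hPd1
        exact sep_of_irr (hq15 v.asIdeal v.isPrime hd hv)
    have hPQ : ((U * Q : ℕ) : 𝓞 F) ∉ v.asIdeal := by
      intro hd
      rw [Nat.cast_mul] at hd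
      rcases v.isPrime.mem_or_mem hd with hd | hd
      · exact hPW hd
      · rw [hQ, Nat.cast_prod] at hd
        obtain ⟨q, hq, hqm⟩ := (Ideal.IsPrime.prod_mem_iff (hp := v.isPrime)).1 hd
        exact hPS q hq hqm
    have hsmall : ∀ n : ℕ, 0 < n → (n : 𝓞 F) ∈ v.asIdeal →
        (∀ p : ℕ, p.Prime → p ∣ n → p ≤ max M (2 * g + 1)) → False := by
      intro n hn hm hle
      obtain ⟨p, hp1, hp2, hp3⟩ := prime_factor v.asIdeal v.isPrime n hn hm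
      have e1 := hW p hp1 (hle p hp1 hp2)
      apply hPW
      obtain ⟨m, hm⟩ := e1
      rw [hm, Nat.cast_mul]
      exact Ideal.mul_mem_right _ _ hp3
    have hfac : ((2 * g + 1).factorial : 𝓞 F) ∉ v.asIdeal := by
      intro hd
      refine hsmall _ (Nat.factorial_pos _) hd fun p hp hpd => ?_
      exact ((hp.dvd_factorial).1 hpd).trans (le_max_right _ _)
    have hPM1 : M < nv v := by
      by_contra hc
      have hnv2 : 2 ≤ nv v := (h7 F).2.2 v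
      refine hsmall (nv v) (by omega) (Ideal.absNorm_mem v.asIdeal) fun p hp hpd => ?_
      have e1 := Nat.le_of_dvd (by omega) hpd
      exact (e1.trans (not_lt.1 hc)).trans (le_max_left _ _)
    have hBP : B ^ dg F ≤ nv v ^ 2 := by
      by_contra hc
      exact ha (Or.inl ⟨haU, v, hPM1, not_le.1 hc, hPQ, hPd'⟩)
    refine ⟨hBP, h3 F g v hg hfac a hPd' fun hD => ?_⟩
    exact ha (Or.inr ⟨haB, v, hBP, hPd1, hD⟩)
  -- finiteness of the family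
  have hFf : {f : (𝓞 F)[X] | Fam g B W f₁ S P f ∧ Cg (sp F U) f f₁}.Finite := by
    refine (hBz.image pol).subset ?_
    intro f hf
    exact ⟨fun j => f.coeff j, bz_coeff hf.1.ht, (eq_pol hf.1.ht).symm⟩
  -- counting
  have c1 : (V \ (U1 ∪ U2)).ncard ≤ {f : (𝓞 F)[X] | Fam g B W f₁ S P f ∧ Cg (sp F U) f f₁}.ncard := by
    rw [← Set.ncard_image_of_injective _ pol_inj]
    exact Set.ncard_le_ncard key hFf
  have c2 : V.ncard ≤ (V \ (U1 ∪ U2)).ncard + (U1.ncard + U2.ncard) := by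
    have e1 := Set.ncard_le_ncard_diff_add_ncard V (U1 ∪ U2) (hU1f.union hU2f)
    have e2 := Set.ncard_union_le U1 U2
    omega
  have c3 : (4 : ℝ) * U1.ncard ≤ V.ncard := by exact_mod_cast hsml
  have hC0 : (0 : ℝ) < C₁ := by exact_mod_cast hC₁
  have c4 : (B : ℝ) ^ (dg F * dd g) ≤
      C₁ * V.ncard * ((U * Q : ℕ) : ℝ) ^ (2 * g * dg F) := by exact_mod_cast hcard
  have hP0 : (0 : ℝ) < ((U * Q : ℕ) : ℝ) ^ (2 * g * dg F) := by positivity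
  have c5 : (4 : ℝ) * U2.ncard ≤ V.ncard := by
    have e1 : (U2.ncard : ℝ) ≤ 1 / (4 * C₁ * ((U * Q : ℕ) : ℝ) ^ (2 * g * dg F)) *
        (C₁ * V.ncard * ((U * Q : ℕ) : ℝ) ^ (2 * g * dg F)) :=
      hstr.trans (mul_le_mul_of_nonneg_left c4 (by positivity))
    have e2 : 1 / (4 * C₁ * ((U * Q : ℕ) : ℝ) ^ (2 * g * dg F)) *
        (C₁ * V.ncard * ((U * Q : ℕ) : ℝ) ^ (2 * g * dg F)) = V.ncard / 4 := by
      field_simp
    rw [e2] at e1
    linarith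
  have c6 : (V.ncard : ℝ) ≤ 2 * ({f : (𝓞 F)[X] | Fam g B W f₁ S P f ∧ Cg (sp F U) f f₁}.ncard : ℝ) := by
    have e1 : (V.ncard : ℝ) ≤ ((V \ (U1 ∪ U2)).ncard : ℝ) + (U1.ncard + U2.ncard) := by
      exact_mod_cast c2
    have e2 : ((V \ (U1 ∪ U2)).ncard : ℝ) ≤
        ({f : (𝓞 F)[X] | Fam g B W f₁ S P f ∧ Cg (sp F U) f f₁}.ncard : ℝ) := by
      exact_mod_cast c1
    linarith
  have c7 : (((∏ q ∈ S, q ^ (2 * g)) ^ Module.finrank ℚ F : ℕ) : ℝ) =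
      (Q : ℝ) ^ (2 * g * dg F) := by
    rw [hQ, Finset.prod_pow]
    push_cast
    rw [← pow_mul]
  rw [c7]
  have hW1 : (0 : ℝ) < (U : ℝ) ^ (2 * g * dg F) := by positivity
  have c8 : (B : ℝ) ^ (dg F * dd g) ≤
      C₁ * (2 * ({f : (𝓞 F)[X] | Fam g B W f₁ S P f ∧ Cg (sp F U) f f₁}.ncard : ℝ)) *
      ((U * Q : ℕ) : ℝ) ^ (2 * g * dg F) :=
    c4.trans (mul_le_mul_of_nonneg_right (mul_le_mul_of_nonneg_left c6 hC0.le) hP0.le)
  rw [one_div_mul_eq_div, div_le_iff₀ (by positivity)]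
  refine c8.trans (le_of_eq ?_)
  push_cast
  rw [mul_pow]
  ring

/-- Many polynomials of the family in the residue class. -/
theorem fame (F : Type) [Field F] [NumberField F] (g m K : ℕ) (hg : 1 ≤ g)
    {f₀ : (𝓞 F)[X]} (hf₀ : Cls g m f₀) :
    ∃ (W U : ℕ) (f₁ : (𝓞 F)[X]), K ≤ W ∧ 0 < U ∧ W ∣ U ∧ m ^ 2 ∣ U ∧ GoodF g W f₁ ∧
      Cg (sp F (m ^ 2)) f₁ f₀ ∧
      ∃ c : ℝ, 0 < c ∧ ∀ (S : Finset ℕ) (𝔮 : ℕ → Ideal (𝓞 F)) (h P : ℕ → (𝓞 F)[X]),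
        GoodS g U S 𝔮 h P → ∃ B₀ : ℕ, ∀ B ≥ B₀,
        c * (B : ℝ) ^ (Module.finrank ℚ F * dd g) ≤
          (((∏ q ∈ S, q ^ (2 * g)) ^ Module.finrank ℚ F : ℕ) : ℝ) *
          ({f : (𝓞 F)[X] | Fam g B W f₁ S P f ∧ Cg (sp F U) f f₁}.ncard : ℝ) :=
  fame_core bxT
    (Pool.Agent.N352.PF.SML99.sml Pool.Agent.N75.PF.cu bxT Pool.Agent.N189.PF.ld Pool.Agent.N195.PF.pr
      Pool.Agent.N195.PF.pf)
    Pool.Agent.N935.PF.WK.wk
    (Pool.Agent.N352.PF.STR331.str Pool.Agent.N75.PF.cu Pool.Agent.N364.PF.cl Pool.Agent.N195.PF.pf)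
    Pool.Agent.N195.PF.dscp Pool.Agent.N250.TF.irrk Pool.Agent.N195.PF.pf F g m K hg hf₀

end Pool.Agent.H859.NF
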